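import Pool.Agent.helper95.FI.SpecA

/-! # fi:THU -/

set_option autoImplicit false

open Finset

namespace Pool.Agent.FI

private theorem THU_bounds (m : ℕ) : ∃ R S : ℕ, R ^ 4 ≤ 8 * m ^ 2 ∧ 8 * S ^ 4 ≤ m ^ 2 ∧
    m < (R + 1) * (S + 1) := by
  refine ⟨Nat.sqrt (Nat.sqrt (8 * m ^ 2)), Nat.sqrt (Nat.sqrt (m ^ 2 / 8)), ?_, ?_, ?_⟩
  · have h1 := Nat.sqrt_le' (8 * m ^ 2)
    have h2 := Nat.sqrt_le' (Nat.sqrt (8 * m ^ 2))
    calc Nat.sqrt (Nat.sqrt (8 * m ^ 2)) ^ 4 = (Nat.sqrt (Nat.sqrt (8 * m ^ 2)) ^ 2) ^ 2 := by ring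
      _ ≤ (Nat.sqrt (8 * m ^ 2)) ^ 2 := Nat.pow_le_pow_left h2 2
      _ ≤ 8 * m ^ 2 := h1
  · have h1 := Nat.sqrt_le' (m ^ 2 / 8)
    have h2 := Nat.sqrt_le' (Nat.sqrt (m ^ 2 / 8))
    have h3 : Nat.sqrt (Nat.sqrt (m ^ 2 / 8)) ^ 4 ≤ m ^ 2 / 8 := by
      calc Nat.sqrt (Nat.sqrt (m ^ 2 / 8)) ^ 4 = (Nat.sqrt (Nat.sqrt (m ^ 2 / 8)) ^ 2) ^ 2 := by ring
        _ ≤ (Nat.sqrt (m ^ 2 / 8)) ^ 2 := Nat.pow_le_pow_left h2 2
        _ ≤ m ^ 2 / 8 := h1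
    have h4 := Nat.div_mul_le_self (m ^ 2) 8
    omega
  · have h1 := Nat.lt_succ_sqrt' (8 * m ^ 2)
    have h2 := Nat.lt_succ_sqrt' (Nat.sqrt (8 * m ^ 2))
    have h3 := Nat.lt_succ_sqrt' (m ^ 2 / 8)
    have h4 := Nat.lt_succ_sqrt' (Nat.sqrt (m ^ 2 / 8))
    obtain ⟨R, hR⟩ : ∃ R, R = Nat.sqrt (Nat.sqrt (8 * m ^ 2)) := ⟨_, rfl⟩
    obtain ⟨S, hS⟩ : ∃ S, S = Nat.sqrt (Nat.sqrt (m ^ 2 / 8)) := ⟨_, rfl⟩
    rw [← hR] at h2 ⊢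
    rw [← hS] at h4 ⊢
    simp only [Nat.succ_eq_add_one] at h1 h2 h3 h4
    have h5 : 8 * m ^ 2 < ((R + 1) ^ 2) ^ 2 := lt_of_lt_of_le h1 (Nat.pow_le_pow_left h2 2)
    have h6 : m ^ 2 / 8 < ((S + 1) ^ 2) ^ 2 := lt_of_lt_of_le h3 (Nat.pow_le_pow_left h4 2)
    have h7 : m ^ 2 < 8 * ((S + 1) ^ 2) ^ 2 := by omega
    by_contra hc
    rw [not_lt] at hc
    have h8 : ((R + 1) * (S + 1)) ^ 4 ≤ m ^ 4 := Nat.pow_le_pow_left hc 4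
    have h9 : (8 * m ^ 2) * m ^ 2 < ((R + 1) ^ 2) ^ 2 * (8 * ((S + 1) ^ 2) ^ 2) := by
      apply Nat.mul_lt_mul_of_lt_of_le h5 h7.le
      positivity
    have h10 : (8 * m ^ 2) * m ^ 2 = 8 * m ^ 4 := by ring
    have h11 : ((R + 1) ^ 2) ^ 2 * (8 * ((S + 1) ^ 2) ^ 2) = 8 * ((R + 1) * (S + 1)) ^ 4 := by ring
    omega

private theorem THU_sq (r s : ℤ) (h : r ^ 2 = 8 * s ^ 2) : r = 0 ∧ s = 0 := by
  by_cases hs : s = 0
  · rw [hs] at h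
    refine ⟨?_, hs⟩
    have : r ^ 2 = 0 := by rw [h]; ring
    exact pow_eq_zero_iff (two_ne_zero) |>.1 this
  · exfalso
    have h1 : (r : ℝ) ^ 2 = 8 * (s : ℝ) ^ 2 := by exact_mod_cast h
    have h2 : Irrational (√2) := irrational_sqrt_two
    apply h2
    have hs' : (s : ℝ) ≠ 0 := by exact_mod_cast hs
    refine ⟨|(r : ℚ) / (2 * s)|, ?_⟩
    have h3 : (|(r : ℝ) / (2 * s)|) ^ 2 = 2 := by
      rw [sq_abs, div_pow, h1]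
      field_simp
      ring
    have h4 : √2 = |(r : ℝ) / (2 * s)| := by
      calc √2 = √((|(r : ℝ) / (2 * s)|) ^ 2) := by rw [h3]
        _ = |(r : ℝ) / (2 * s)| := Real.sqrt_sq (abs_nonneg _)
    rw [h4]
    push_cast
    rfl

private theorem THU_odd (m : ℕ) (hm : Odd m) (r s k : ℤ) (h : r ^ 2 - 8 * s ^ 2 = 2 * (k * m)) (hk : Odd k) :
    False := by
  have h1 : Even (r ^ 2) := by
    rw [show r ^ 2 = 2 * (4 * s ^ 2 + k * m) by linarith]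
    exact even_two_mul _
  have h2 : Even r := (Int.even_pow.1 h1).1
  obtain ⟨t, ht⟩ := h2
  have h3 : k * m = 2 * (t ^ 2 - 2 * s ^ 2) := by
    rw [ht] at h
    linarith [h, (by ring : (t + t) ^ 2 = 4 * t ^ 2)]
  have h4 : Even (k * (m : ℤ)) := by
    rw [h3]
    exact even_two_mul _
  have h5 : Odd (k * (m : ℤ)) := hk.mul (by exact_mod_cast hm)
  exact (Int.not_even_iff_odd.2 h5) h4

/-- **THU** -/
theorem THU : THU_stmt := by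
  intro m ν hm hν
  obtain ⟨R, S, hR, hS, hRS⟩ := THU_bounds m
  have hmpos : 0 < m := hm.pos
  have hmz : (0 : ℤ) < m := by exact_mod_cast hmpos
  obtain ⟨x, hx, y, hy, hxy, hf⟩ := Finset.exists_ne_map_eq_of_card_lt_of_maps_to
    (s := range (R + 1) ×ˢ range (S + 1)) (t := range m)
    (f := fun w : ℕ × ℕ => (((w.1 : ℤ) - ν * w.2) % m).toNat)
    (by rw [card_product, card_range, card_range, card_range]; exact hRS)
    (by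
      intro w _
      rw [mem_coe, mem_range]
      have h1 := Int.emod_nonneg ((w.1 : ℤ) - ν * w.2) hmz.ne'
      have h2 := Int.emod_lt_of_pos ((w.1 : ℤ) - ν * w.2) hmz
      show (((w.1 : ℤ) - ν * w.2) % m).toNat < m
      omega)
  rw [mem_product, mem_range, mem_range] at hx hy
  have hf' : ((x.1 : ℤ) - ν * x.2) % m = ((y.1 : ℤ) - ν * y.2) % m := by
    have h1 := Int.emod_nonneg ((x.1 : ℤ) - ν * x.2) hmz.ne'
    have h2 := Int.emod_nonneg ((y.1 : ℤ) - ν * y.2) hmz.ne'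
    have h3 : (((x.1 : ℤ) - ν * x.2) % m).toNat = (((y.1 : ℤ) - ν * y.2) % m).toNat := hf
    omega
  obtain ⟨r, hr⟩ : ∃ r : ℤ, r = x.1 - y.1 := ⟨_, rfl⟩
  obtain ⟨s, hs⟩ : ∃ s : ℤ, s = x.2 - y.2 := ⟨_, rfl⟩
  have hdvd : (m : ℤ) ∣ r - ν * s := by
    have h2 : (m : ℤ) ∣ ((x.1 : ℤ) - ν * x.2) - ((y.1 : ℤ) - ν * y.2) :=
      Int.ModEq.dvd (show ((y.1 : ℤ) - ν * y.2) ≡ ((x.1 : ℤ) - ν * x.2) [ZMOD m] from hf'.symm)
    rw [hr, hs]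
    have h3 : ((x.1 : ℤ) - y.1) - ν * (x.2 - y.2) = ((x.1 : ℤ) - ν * x.2) - ((y.1 : ℤ) - ν * y.2) := by
      ring
    rw [h3]
    exact h2
  have hne : ¬ (r = 0 ∧ s = 0) := by
    rintro ⟨h1, h2⟩
    apply hxy
    ext
    · omega
    · omega
  have hrR : |r| ≤ R := by
    rw [abs_le]
    constructor <;> omega
  have hsS : |s| ≤ S := by
    rw [abs_le]
    constructor <;> omega
  have hdvd2 : (m : ℤ) ∣ r ^ 2 - 8 * s ^ 2 := by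
    have h1 : r ^ 2 - 8 * s ^ 2 = (r - ν * s) * (r + ν * s) + (ν ^ 2 - 8) * s ^ 2 := by ring
    rw [h1]
    exact dvd_add (Dvd.dvd.mul_right hdvd _) (Dvd.dvd.mul_right hν _)
  obtain ⟨j, hj⟩ := hdvd2
  have hr4 : r ^ 4 ≤ 8 * (m : ℤ) ^ 2 := by
    have h1 : r ^ 4 ≤ (R : ℤ) ^ 4 := by
      have h2 : |r| ^ 4 ≤ (R : ℤ) ^ 4 := pow_le_pow_left₀ (abs_nonneg _) hrR 4
      rwa [Even.pow_abs (by decide : Even 4)] at h2
    have h3 : (R : ℤ) ^ 4 ≤ 8 * (m : ℤ) ^ 2 := by exact_mod_cast hR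
    linarith
  have hs4 : 8 * s ^ 4 ≤ (m : ℤ) ^ 2 := by
    have h1 : s ^ 4 ≤ (S : ℤ) ^ 4 := by
      have h2 : |s| ^ 4 ≤ (S : ℤ) ^ 4 := pow_le_pow_left₀ (abs_nonneg _) hsS 4
      rwa [Even.pow_abs (by decide : Even 4)] at h2
    have h3 : 8 * (S : ℤ) ^ 4 ≤ (m : ℤ) ^ 2 := by exact_mod_cast hS
    linarith
  have hj2 : (m * j) ^ 2 ≤ 8 * (m : ℤ) ^ 2 := by
    rw [← hj]
    have h5 : 0 ≤ r ^ 2 := sq_nonneg r
    have h6 : 0 ≤ s ^ 2 := sq_nonneg s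
    rcases le_total (r ^ 2) (8 * s ^ 2) with h | h
    · have h7 : (r ^ 2 - 8 * s ^ 2) ^ 2 ≤ (8 * s ^ 2) ^ 2 := by
        apply sq_le_sq'
        · linarith
        · linarith
      have h8 : (8 * s ^ 2) ^ 2 = 8 * (8 * s ^ 4) := by ring
      linarith
    · have h7 : (r ^ 2 - 8 * s ^ 2) ^ 2 ≤ (r ^ 2) ^ 2 := by
        apply sq_le_sq'
        · linarith
        · linarith
      have h8 : (r ^ 2) ^ 2 = r ^ 4 := by ring
      linarith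
  have hj3 : j ^ 2 ≤ 8 := by
    have h9 : (m : ℤ) ^ 2 * j ^ 2 ≤ (m : ℤ) ^ 2 * 8 := by
      calc (m : ℤ) ^ 2 * j ^ 2 = (m * j) ^ 2 := by ring
        _ ≤ 8 * (m : ℤ) ^ 2 := hj2
        _ = (m : ℤ) ^ 2 * 8 := by ring
    exact le_of_mul_le_mul_left h9 (by positivity)
  have hj4 : -2 ≤ j ∧ j ≤ 2 := by
    constructor <;> nlinarith
  refine ⟨(r, s), ?_, hdvd⟩
  unfold nn N8
  show (r ^ 2 - 8 * s ^ 2).natAbs = m
  obtain ⟨h1, h2⟩ := hj4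
  interval_cases j
  · exfalso
    exact THU_odd m hm r s (-1) (by linarith) (by decide)
  · rw [hj]
    simp
  · exfalso
    apply hne
    apply THU_sq
    linarith
  · rw [hj]
    simp
  · exfalso
    exact THU_odd m hm r s 1 (by linarith) (by decide)

end Pool.Agent.FI
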